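import Pool.Agent.Helper69.TPF.St2

/-!
# Project TPF, module CEN: surface words of lifts
-/

set_option autoImplicit false

open scoped commutatorElement

namespace Pool.Agent.Helper37.TPF

open Pool.Agent.Helper69.TPF

private theorem cen_comm {Γ : Type} [Group Γ] {a b a' b' u v : Γ} (ha : a = a' * u) (hb : b = b' * v)
    (hu : u ∈ Subgroup.center Γ) (hv : v ∈ Subgroup.center Γ) : ⁅a, b⁆ = ⁅a', b'⁆ := by
  rw [Subgroup.mem_center_iff] at hu hv
  have hu1 : ∀ g : Γ, u * g = g * u := fun g => (hu g).symm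
  have hv1 : ∀ g : Γ, v * g = g * v := fun g => (hv g).symm
  subst ha hb
  rw [commutatorElement_def, commutatorElement_def, mul_inv_rev, mul_inv_rev]
  have h1 : a' * u * (b' * v) * (u⁻¹ * a'⁻¹) * (v⁻¹ * b'⁻¹) =
      a' * (u * (b' * v * u⁻¹)) * a'⁻¹ * (v⁻¹ * b'⁻¹) := by group
  rw [h1, hu1 (b' * v * u⁻¹)]
  have h2 : a' * (b' * v * u⁻¹ * u) * a'⁻¹ * (v⁻¹ * b'⁻¹) =
      a' * b' * (v * (a'⁻¹ * v⁻¹)) * b'⁻¹ := by group
  rw [h2, hv1 (a'⁻¹ * v⁻¹)]
  group

/-- **CEN** -/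
theorem cCEN : St_CEN := by
  intro g Γ G _ _ p hp s s' h
  unfold Pool.Agent.Helper69.TPF.Rel
  congr 1
  apply List.map_congr_left
  intro i _
  have hz : ∀ j, (s' j)⁻¹ * s j ∈ Subgroup.center Γ := by
    intro j
    apply hp
    rw [MonoidHom.mem_ker, map_mul, map_inv, h j, inv_mul_cancel]
  exact cen_comm (by group) (by group) (hz (i, false)) (hz (i, true))

end Pool.Agent.Helper37.TPF
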