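import Pool.Agent.Helper69.TPF.St1

/-!
# Project TPF, module IDE: primitive idempotents
-/

set_option autoImplicit false

namespace Pool.Agent.Helper37.TPF

open Pool.Agent.Helper69.TPF

private theorem ide_comm (R : Type) [CommRing R] [Algebra ℂ R] [FiniteDimensional ℂ R]
    (hred : ∀ a : R, a * a = 0 → a = 0) (z : R) (hz : z ≠ 0) :
    ∃ e : R, e * e = e ∧ e ≠ 0 ∧ (∀ w : R, ∃ c : ℂ, e * w = c • e) ∧ e * z ≠ 0 := by
  classical
  have : IsArtinianRing R := IsArtinianRing.of_finite ℂ R
  have : IsReduced R := by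
    rw [isReduced_iff_pow_one_lt 2 (by norm_num)]
    intro x hx
    exact hred x (by rw [← hx, sq])
  have φ := IsArtinianRing.equivPi R
  have h1 : φ z ≠ 0 := by
    intro h
    exact hz (by simpa using h)
  obtain ⟨I, hI⟩ := Function.ne_iff.1 h1
  set e : R := φ.symm (Pi.single I 1) with he
  have hφe : φ e = Pi.single I 1 := by rw [he]; exact φ.apply_symm_apply _
  have hIm : I.asIdeal.IsMaximal := I.isMaximal
  have hval : ∀ w : R, φ (e * w) = Pi.single I (φ w I) := by
    intro w
    rw [map_mul, hφe]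
    funext J
    by_cases hJ : J = I
    · subst hJ; simp
    · simp [hJ]
  have hmk : ∀ r : R, φ r I = Ideal.Quotient.mk I.asIdeal r := by
    intro r
    have h2 := φ.commutes r
    rw [Algebra.algebraMap_self_apply] at h2
    rw [h2]
    rfl
  have hne : e ≠ 0 := by
    intro h0
    rw [h0, map_zero] at hφe
    have h2 := congrFun hφe I
    rw [Pi.single_eq_same] at h2
    exact zero_ne_one h2
  letI : Field (R ⧸ I.asIdeal) := Ideal.Quotient.field I.asIdeal
  have hfin : Module.Finite ℂ (R ⧸ I.asIdeal) :=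
    Module.Finite.of_surjective (Ideal.Quotient.mkₐ ℂ I.asIdeal).toLinearMap
      (Ideal.Quotient.mkₐ_surjective ℂ I.asIdeal)
  have hint : Algebra.IsIntegral ℂ (R ⧸ I.asIdeal) := Algebra.IsIntegral.of_finite ℂ _
  have hsurj : Function.Surjective (algebraMap ℂ (R ⧸ I.asIdeal)) :=
    (IsAlgClosed.algebraMap_bijective_of_isIntegral (k := ℂ) (K := R ⧸ I.asIdeal)).2
  have hsc : ∀ w : R, ∃ c : ℂ, e * w = c • e := by
    intro w
    obtain ⟨c, hc⟩ := hsurj (φ w I)
    refine ⟨c, φ.injective ?_⟩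
    rw [hval w, Algebra.smul_def, mul_comm, hval, ← hc, hmk]
    rfl
  refine ⟨e, ?_, hne, hsc, ?_⟩
  · apply φ.injective
    rw [hval, hφe, Pi.single_eq_same]
  · intro h0
    have h2 := hval z
    rw [h0, map_zero] at h2
    have h3 := congrFun h2 I
    rw [Pi.single_eq_same] at h3
    exact hI h3.symm

private theorem ide_ring (R : Type) [iR : Ring R] [Algebra ℂ R] [FiniteDimensional ℂ R]
    (hc : ∀ a b : R, a * b = b * a)
    (hred : ∀ a : R, a * a = 0 → a = 0) (z : R) (hz : z ≠ 0) :
    ∃ e : R, e * e = e ∧ e ≠ 0 ∧ (∀ w : R, ∃ c : ℂ, e * w = c • e) ∧ e * z ≠ 0 := by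
  letI : CommRing R := { iR with mul_comm := hc }
  exact ide_comm R hred z hz

/-- **IDE** -/
theorem cIDE (adj : St_ADJ) (grd : St_GRD) : St_IDE := by
  intro E G _ _ _ π z hz hz0
  obtain ⟨a1, a2, a3, a4, a5, a6, a7, a8, a9⟩ := adj E G π
  obtain ⟨g1, g2, g3, g4, g5, g6, g7, g8⟩ := grd E G π
  let Z : Subalgebra ℂ (AA E) :=
    { carrier := {w | CC π 1 w}
      mul_mem' := fun {a b} ha hb => by
        have h := g6 1 1 a b ha hb
        rw [mul_one] at h
        exact h
      add_mem' := fun {a b} ha hb => g3 1 a b ha hb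
      algebraMap_mem' := fun r => by
        have h := g4 1 r 1 g1
        rw [Algebra.smul_def, mul_one] at h
        exact h }
  have hmem : ∀ w : AA E, w ∈ Z ↔ CC π 1 w := fun w => Iff.rfl
  have hfin : FiniteDimensional ℂ (AA E) := inferInstance
  have hfinZ : FiniteDimensional ℂ Z :=
    FiniteDimensional.finiteDimensional_submodule (Subalgebra.toSubmodule Z)
  have hc : ∀ a b : Z, a * b = b * a := by
    intro a b
    apply Subtype.ext
    exact g7 1 _ _ a.2 b.2
  have hred : ∀ a : Z, a * a = 0 → a = 0 := by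
    intro a ha
    apply Subtype.ext
    have h1 : (a : AA E) * (a : AA E) = 0 := congrArg Subtype.val ha
    have h2 : CC π 1 (Pool.Agent.Helper69.TPF.adj (a : AA E)) := by
      have h := a9 1 _ a.2
      rwa [inv_one] at h
    have h3 : (a : AA E) * Pool.Agent.Helper69.TPF.adj (a : AA E) =
        Pool.Agent.Helper69.TPF.adj (a : AA E) * (a : AA E) := g7 1 _ _ a.2 h2
    set y : AA E := (a : AA E) * Pool.Agent.Helper69.TPF.adj (a : AA E) with hy
    have h4 : Pool.Agent.Helper69.TPF.adj y = y := by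
      rw [hy, a1, a2]
    have h5 : y * Pool.Agent.Helper69.TPF.adj y = 0 := by
      rw [h4]
      have h6 : y * y = ((a : AA E) * (a : AA E)) *
          (Pool.Agent.Helper69.TPF.adj (a : AA E) * Pool.Agent.Helper69.TPF.adj (a : AA E)) := by
        calc y * y = (a : AA E) * Pool.Agent.Helper69.TPF.adj (a : AA E) *
              ((a : AA E) * Pool.Agent.Helper69.TPF.adj (a : AA E)) := rfl
          _ = (a : AA E) * (Pool.Agent.Helper69.TPF.adj (a : AA E) * (a : AA E)) *
              Pool.Agent.Helper69.TPF.adj (a : AA E) := by simp only [mul_assoc]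
          _ = (a : AA E) * ((a : AA E) * Pool.Agent.Helper69.TPF.adj (a : AA E)) *
              Pool.Agent.Helper69.TPF.adj (a : AA E) := by rw [← h3]
          _ = _ := by simp only [mul_assoc]
      rw [h6, h1, zero_mul]
    have h7 : y = 0 := a7 y h5
    exact a7 _ h7
  obtain ⟨e, e1, e2, e3, e4⟩ := ide_ring Z hc hred ⟨z, hz⟩ (fun h => hz0 (congrArg Subtype.val h))
  refine ⟨(e : AA E), ⟨e.2, congrArg Subtype.val e1, fun h => e2 (Subtype.ext h), ?_⟩, ?_⟩
  · intro w hw
    obtain ⟨c, hc'⟩ := e3 ⟨w, hw⟩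
    exact ⟨c, congrArg Subtype.val hc'⟩
  · intro h
    exact e4 (Subtype.ext h)

end Pool.Agent.Helper37.TPF
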